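import Mathlib
import Pool.Agent.Y387.MD.Main

set_option autoImplicit false

namespace Pool.Agent.Results.MP_d0f9e0_co.ModuliDimension

/-- `x` is a maximal equiangular tight frame in `ℂ^d`. -/
def IsMaximalETF (d : ℕ) (x : Fin (d ^ 2) → EuclideanSpace ℂ (Fin d)) : Prop :=
  (∀ i, ‖x i‖ = 1) ∧ ∀ i j, i ≠ j → ‖inner ℂ (x i) (x j)‖ = 1 / Real.sqrt ((d : ℝ) + 1)

/-- `v` is a first order deformation of `x`: if the vectors `x i` move with velocities `v i`, all the
numbers `|⟨x i, x j⟩|²` (including `i = j`) are constant to first order. -/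
def IsDeformation {d : ℕ} (x v : Fin (d ^ 2) → EuclideanSpace ℂ (Fin d)) : Prop :=
  ∀ i j, HasDerivAt (fun t : ℝ =>
    ‖inner ℂ (x i + (t : ℂ) • v i) (x j + (t : ℂ) • v j)‖ ^ 2) 0 0

/-- `v` is the sum of the trivial deformation with velocities `A (x i) + √-1 θ i x i`, which comes
from moving all the vectors by unitary transformations (`A` is skew-Hermitian) and from changing
their phases (the `θ i` are real), and of `w`. -/
def IsTrivialPlus {d : ℕ} (x v w : Fin (d ^ 2) → EuclideanSpace ℂ (Fin d)) : Prop :=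
  ∃ (A : EuclideanSpace ℂ (Fin d) →ₗ[ℂ] EuclideanSpace ℂ (Fin d)) (θ : Fin (d ^ 2) → ℝ),
    (∀ a b, inner ℂ (A a) b = -inner ℂ a (A b)) ∧
      ∀ i, v i = A (x i) + ((θ i : ℂ) * Complex.I) • x i + w i

/-- **The deformations of maximal equiangular tight frames.** For every maximal ETF `x` in `ℂ^d`
there is a complex vector space `N` of dimension at most `d - 1` such that the first order
deformations of `x` are exactly the sums of a trivial deformation and an element of `N`. -/
theorem result (d : ℕ) (hd : 1 ≤ d) (x : Fin (d ^ 2) → EuclideanSpace ℂ (Fin d))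
    (hx : IsMaximalETF d x) :
    ∃ N : Submodule ℂ (Fin (d ^ 2) → EuclideanSpace ℂ (Fin d)),
      Module.finrank ℂ N ≤ d - 1 ∧
      ∀ v : Fin (d ^ 2) → EuclideanSpace ℂ (Fin d),
        IsDeformation x v ↔ ∃ w ∈ N, IsTrivialPlus x v w := by
  have hE : Pool.Agent.Y387.SF.IsEtf d x := ⟨hx.1, hx.2⟩
  have hV : Module.finrank ℂ (EuclideanSpace ℂ (Fin d)) = d := by simp
  refine ⟨Pool.Agent.Y387.MD.NN x, Pool.Agent.Y387.MD.finrank_NN hE hd (by simp) hV,
    fun v => ?_⟩
  have h1 := Pool.Agent.Y387.MD.isDef_iff (x := x) v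
  have h2 := Pool.Agent.Y387.MD.decomp hE hd (by simp) hV v
  unfold IsDeformation
  rw [← h1, h2]
  constructor
  · rintro ⟨A, θ, w, hw, hA, hv⟩
    exact ⟨w, hw, A, θ, hA, hv⟩
  · rintro ⟨w, hw, A, θ, hA, hv⟩
    exact ⟨A, θ, w, hw, hA, hv⟩

end Pool.Agent.Results.MP_d0f9e0_co.ModuliDimension
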