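import Mathlib
import Pool.Agent.Y387.AP.Main

set_option autoImplicit false

namespace Pool.Agent.Results.MP_d0f9e0_co.PowerSavingApproximate

/-- Approximate maximal equiangular tight frames exist in every dimension, with exactly `d²`
vectors and a power saving. There are constants `c, C > 0` such that every `ℂ^d`, `d ≥ 1`, contains
an exactly tight frame `x` of `N ≤ (1 + C d^(-c)) d²` unit vectors with
`|(d + 1) |⟨x_i, x_j⟩|² - 1| ≤ C d^(-c)` for all `i ≠ j`, of which exactly `d²` (those indexed by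
`S`) form a frame that is tight up to a relative error `C d^(-c)`. -/
theorem result : ∃ c C : ℝ, 0 < c ∧ 0 < C ∧ ∀ d : ℕ, 1 ≤ d →
    ∃ (N : ℕ) (x : Fin N → EuclideanSpace ℂ (Fin d)),
      (N : ℝ) ≤ (1 + C * (d : ℝ) ^ (-c)) * (d : ℝ) ^ 2 ∧
      (∀ i, ‖x i‖ = 1) ∧
      (∀ i j, i ≠ j →
        |((d : ℝ) + 1) * ‖inner ℂ (x i) (x j)‖ ^ 2 - 1| ≤ C * (d : ℝ) ^ (-c)) ∧
      (∀ u : EuclideanSpace ℂ (Fin d),
        ∑ i, ‖inner ℂ (x i) u‖ ^ 2 = ((N : ℝ) / d) * ‖u‖ ^ 2) ∧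
      ∃ S : Finset (Fin N), S.card = d ^ 2 ∧ ∀ u : EuclideanSpace ℂ (Fin d),
        |∑ i ∈ S, ‖inner ℂ (x i) u‖ ^ 2 - d * ‖u‖ ^ 2| ≤ C * (d : ℝ) ^ (-c) * (d * ‖u‖ ^ 2) :=
  Pool.Agent.Y387.AP.main

end Pool.Agent.Results.MP_d0f9e0_co.PowerSavingApproximate
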