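import Mathlib
import Pool.Agent.Y387.SF.Class

set_option autoImplicit false

namespace Pool.Agent.Results.MP_d0f9e0_co.PrimeFiniteness

/-- `x` is a maximal equiangular tight frame in `ℂ^d`. -/
def IsMaximalETF (d : ℕ) (x : Fin (d ^ 2) → EuclideanSpace ℂ (Fin d)) : Prop :=
  (∀ i, ‖x i‖ = 1) ∧ ∀ i j, i ≠ j → ‖inner ℂ (x i) (x j)‖ = 1 / Real.sqrt ((d : ℝ) + 1)

/-- The unitary transformations permuting the lines spanned by the vectors of `x` act transitively
on these lines. -/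
def HasTransitiveSymmetry {d : ℕ} (x : Fin (d ^ 2) → EuclideanSpace ℂ (Fin d)) : Prop :=
  ∀ i j, ∃ (U : EuclideanSpace ℂ (Fin d) ≃ₗᵢ[ℂ] EuclideanSpace ℂ (Fin d))
    (π : Equiv.Perm (Fin (d ^ 2))), (∀ k, ∃ c : ℂ, U (x k) = c • x (π k)) ∧ π i = j

/-- `x` and `y` differ by a unitary transformation and phases. -/
def Equivalent {d : ℕ} (x y : Fin (d ^ 2) → EuclideanSpace ℂ (Fin d)) : Prop :=
  ∃ U : EuclideanSpace ℂ (Fin d) ≃ₗᵢ[ℂ] EuclideanSpace ℂ (Fin d),
    ∀ k, ∃ c : ℂ, ‖c‖ = 1 ∧ U (x k) = c • y k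

/-- **Finiteness and algebraicity in prime dimensions.** Let `p ≥ 5` be a prime. Up to equivalence
there are only finitely many maximal equiangular tight frames in `ℂ^p` with a transitive group of
unitary symmetries (in particular only finitely many which are orbits of a Weyl-Heisenberg group),
and each of them is equivalent to one all of whose vectors have algebraic coordinates. -/
theorem result (p : ℕ) (hp : p.Prime) (hp5 : 5 ≤ p) :
    ∃ S : Set (Fin (p ^ 2) → EuclideanSpace ℂ (Fin p)), S.Finite ∧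
      (∀ y ∈ S, IsMaximalETF p y ∧ ∀ k i, IsAlgebraic ℚ (y k i)) ∧
      ∀ x : Fin (p ^ 2) → EuclideanSpace ℂ (Fin p), IsMaximalETF p x →
        HasTransitiveSymmetry x → ∃ y ∈ S, Equivalent x y := by
  have : Fact p.Prime := ⟨hp⟩
  obtain ⟨S, hS, hS1, hS2⟩ := Pool.Agent.Y387.SF.classify hp5
  refine ⟨S, hS, fun y hy => ?_, fun x hx htr => hS2 x ⟨hx.1, hx.2⟩ htr⟩
  obtain ⟨h1, h2⟩ := hS1 y hy
  exact ⟨⟨h1.nrm, h1.ang⟩, h2⟩

end Pool.Agent.Results.MP_d0f9e0_co.PrimeFiniteness
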