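import Mathlib
import Pool.Agent.Y387.RU.Trans

set_option autoImplicit false

namespace Pool.Agent.Results.MP_d0f9e0_co.SymmetryRootsOfUnity

/-- `x` is a maximal equiangular tight frame in `ℂ^d`. -/
def IsMaximalETF (d : ℕ) (x : Fin (d ^ 2) → EuclideanSpace ℂ (Fin d)) : Prop :=
  (∀ i, ‖x i‖ = 1) ∧ ∀ i j, i ≠ j → ‖inner ℂ (x i) (x j)‖ = 1 / Real.sqrt ((d : ℝ) + 1)

/-- The unitary transformation `U` maps the line of `x i` to the line of `x (π i)` for all `i`. -/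
def Induces {d : ℕ} (x : Fin (d ^ 2) → EuclideanSpace ℂ (Fin d))
    (U : EuclideanSpace ℂ (Fin d) ≃ₗᵢ[ℂ] EuclideanSpace ℂ (Fin d))
    (π : Equiv.Perm (Fin (d ^ 2))) : Prop :=
  ∀ i, ∃ c : ℂ, U (x i) = c • x (π i)

/-- `K` contains all triple products. -/
def TripleProductsIn {d : ℕ} (x : Fin (d ^ 2) → EuclideanSpace ℂ (Fin d)) (K : Subfield ℂ) :
    Prop :=
  ∀ i j k, inner ℂ (x i) (x j) * inner ℂ (x j) (x k) * inner ℂ (x k) (x i) ∈ K

/-- If two unitary symmetries `U`, `W` satisfy `UW = ζWU`, then `ζ ∈ K`. -/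
def CommutatorsIn {d : ℕ} (x : Fin (d ^ 2) → EuclideanSpace ℂ (Fin d)) (K : Subfield ℂ) : Prop :=
  ∀ U W π σ, Induces x U π → Induces x W σ → ∀ ζ : ℂ, (∀ v, U (W v) = ζ • W (U v)) → ζ ∈ K

/-- If `U` is a unitary symmetry with `U^m = 1`, then `⟨x_i, U x_i⟩^m ∈ K` for all `i`. -/
def OverlapPowersIn {d : ℕ} (x : Fin (d ^ 2) → EuclideanSpace ℂ (Fin d)) (K : Subfield ℂ) : Prop :=
  ∀ U π, Induces x U π → ∀ m : ℕ, U ^ m = 1 → ∀ i, inner ℂ (x i) (U (x i)) ^ m ∈ K

/-- `G` is a group of permutations of the lines which are induced by unitary symmetries, and it is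
transitive. -/
def IsTransitiveSymmetryGroup {d : ℕ} (x : Fin (d ^ 2) → EuclideanSpace ℂ (Fin d))
    (G : Subgroup (Equiv.Perm (Fin (d ^ 2)))) : Prop :=
  (∀ π ∈ G, ∃ U, Induces x U π) ∧ ∀ i j, ∃ π ∈ G, π i = j

/-- The product of the primes dividing `d`. -/
def rad (d : ℕ) : ℕ := ∏ ℓ ∈ d.primeFactors, ℓ

/-- **Roots of unity in the field of the triple products.** Let `K` be a subfield of `ℂ` which
contains all triple products of a maximal equiangular tight frame in `ℂ^d`.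
* If two unitary symmetries `U`, `W` of the frame satisfy `UW = ζWU`, then `ζ ∈ K`.
* If `U` is a unitary symmetry with `U^m = 1`, then `⟨x_i, U x_i⟩^m ∈ K` for all `i`.
* If a group of symmetries is transitive on the `d²` lines, and it is nilpotent or `d` is a prime
  power, then `K` contains a primitive root of unity of order `rad d` (the product of the primes
  dividing `d`), so that `φ(rad d)` divides `[K : ℚ]` (which is `0` if infinite). -/
theorem result (d : ℕ) (hd : 1 ≤ d) (x : Fin (d ^ 2) → EuclideanSpace ℂ (Fin d))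
    (hx : IsMaximalETF d x) (K : Subfield ℂ) (hK : TripleProductsIn x K) :
    CommutatorsIn x K ∧ OverlapPowersIn x K ∧
    ∀ G, IsTransitiveSymmetryGroup x G → (Group.IsNilpotent G ∨ IsPrimePow d) →
      (∃ ξ ∈ K, IsPrimitiveRoot ξ (rad d)) ∧ (rad d).totient ∣ Module.finrank ℚ K := by
  have hx' : Pool.Agent.Y387.SF.IsEtf d x := ⟨hx.1, hx.2⟩
  have hcard : Fintype.card (Fin (d ^ 2)) = d ^ 2 := Fintype.card_fin _
  have hV : Module.finrank ℂ (EuclideanSpace ℂ (Fin d)) = d := by simp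
  have hne : Nonempty (Fin (d ^ 2)) := ⟨⟨0, by positivity⟩⟩
  refine ⟨?_, ?_, ?_⟩
  · intro U W π σ hU hW ζ hζ
    exact Pool.Agent.Y387.RU.comm_mem hx' hd hcard hV hK hU hW hζ
  · intro U π hU m hm i
    exact Pool.Agent.Y387.RU.pow_mem_of hx' hd hcard hV hK hU hm i
  · intro G hG hnil
    have h1 : ∃ ξ ∈ K, IsPrimitiveRoot ξ (rad d) := by
      apply Pool.Agent.Y387.RU.rad_mem _ (fun ℓ hℓ => Nat.prime_of_mem_primeFactors hℓ)
      intro ℓ hℓ
      exact Pool.Agent.Y387.RU.root_mem hx' hd hcard hV hK G hG.1 hG.2 hnil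
        (Nat.prime_of_mem_primeFactors hℓ) (Nat.dvd_of_mem_primeFactors hℓ)
    obtain ⟨ξ, hξ, hp⟩ := h1
    exact ⟨⟨ξ, hξ, hp⟩, Pool.Agent.Y387.RU.totient_dvd
      (Finset.prod_pos fun ℓ hℓ => (Nat.prime_of_mem_primeFactors hℓ).pos) hξ hp⟩

end Pool.Agent.Results.MP_d0f9e0_co.SymmetryRootsOfUnity
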